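import Pool.Agent.Helper65.RP.Defs3
import Pool.Agent.Helper61.RP.Growth

/-!
# Specialisation of a complex point to an algebraic point with infinite orbit
-/

set_option autoImplicit false

namespace Pool.Agent.Helper87.RP

open MvPolynomial Filter Topology
open Pool.Agent.Helper65.RP

section unit

variable {K : Type} [Field K] [Infinite K] {R : Type} [CommRing R] [IsDomain R] [Algebra K R]
  [Algebra.FiniteType K R]

/-- In a finitely generated domain, `t - c` is a unit for only finitely many constants `c`, if `t`
is transcendental. -/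
private lemma finite_isUnit_sub {t : R} (ht : Transcendental K t) :
    {c : K | IsUnit (t - algebraMap K R c)}.Finite := by
  by_contra hinf
  rw [Set.not_finite] at hinf
  obtain ⟨s, g, inj, int⟩ := exists_integral_inj_algHom_of_fg K R
  let _ : Algebra (MvPolynomial (Fin s) K) R := g.toRingHom.toAlgebra
  have hg : ∀ x, algebraMap (MvPolynomial (Fin s) K) R x = g x := fun x => rfl
  have : IsScalarTower K (MvPolynomial (Fin s) K) R := by
    refine IsScalarTower.of_algebraMap_eq fun x => ?_
    rw [hg]
    exact (g.commutes x).symm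
  have : Algebra.IsIntegral (MvPolynomial (Fin s) K) R := ⟨fun x => int x⟩
  have : FaithfulSMul (MvPolynomial (Fin s) K) R :=
    (faithfulSMul_iff_algebraMap_injective _ _).2 inj
  have : Module.IsTorsionFree (MvPolynomial (Fin s) K) R := inferInstance
  set A := MvPolynomial (Fin s) K with hA
  have hti : IsIntegral A t := Algebra.IsIntegral.isIntegral t
  set p := minpoly A t with hp
  -- `t - c` is a unit implies that `p(c)` is a unit
  have key : ∀ c : K, IsUnit (t - algebraMap K R c) → IsUnit (p.eval (C c)) := by
    intro c hc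
    let S := Algebra.adjoin A ({t} : Set R)
    have htS : t ∈ S := Algebra.subset_adjoin rfl
    have hcS : t - algebraMap K R c ∈ S := by
      refine Subalgebra.sub_mem _ htS ?_
      rw [IsScalarTower.algebraMap_apply K A R]
      exact S.algebraMap_mem _
    have : Algebra.IsIntegral S R := ⟨fun x => (Algebra.IsIntegral.isIntegral (R := A) x).tower_top⟩
    have hloc : IsLocalHom (algebraMap S R) := inferInstance
    have h1 : IsUnit (⟨t - algebraMap K R c, hcS⟩ : S) := hloc.map_nonunit _ hc
    obtain ⟨u, hu⟩ := h1.exists_right_inv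
    obtain ⟨r, hr⟩ : ∃ r : Polynomial A, Polynomial.aeval t r = (u : R) := by
      have h0 : (u : R) ∈ Algebra.adjoin A ({t} : Set R) := u.2
      rw [Algebra.adjoin_singleton_eq_range_aeval] at h0
      exact h0
    have h2 : Polynomial.aeval t ((Polynomial.X - Polynomial.C (C c)) * r - 1) = 0 := by
      rw [map_sub, map_mul, map_sub, Polynomial.aeval_X, Polynomial.aeval_C, hr, map_one]
      have h3 := congrArg (Subtype.val) hu
      have h4 : algebraMap A R (C c) = algebraMap K R c :=
        (IsScalarTower.algebraMap_apply K A R c).symm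
      rw [h4]
      have h5 : (t - algebraMap K R c) * (u : R) = 1 := h3
      rw [h5, sub_self]
    obtain ⟨q, hq⟩ := minpoly.isIntegrallyClosed_dvd hti h2
    have h6 := congrArg (Polynomial.eval (C c)) hq
    rw [Polynomial.eval_sub, Polynomial.eval_mul, Polynomial.eval_sub, Polynomial.eval_X,
      Polynomial.eval_C, sub_self, zero_mul, Polynomial.eval_one, Polynomial.eval_mul, zero_sub]
      at h6
    refine IsUnit.of_mul_eq_one (-(q.eval (C c))) ?_
    rw [mul_neg, hp, ← h6, neg_neg]
  -- the coefficients of `p` are constant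
  have h7 : ∀ y : Fin s → K, p.map (eval y) = p.map (eval 0) := by
    intro y
    apply Polynomial.eq_of_infinite_eval_eq
    refine hinf.mono fun c hc => ?_
    obtain ⟨r, -, hr⟩ := (MvPolynomial.isUnit_iff_eq_C_of_isReduced).1 (key c hc)
    have h8 : ∀ z : Fin s → K, (p.map (eval z)).eval c = r := by
      intro z
      have h9 : (p.map (eval z)).eval c = eval z (p.eval (C c)) := by
        have h9' : (p.map (eval z)).eval (eval z (C c)) = eval z (p.eval (C c)) := by
          rw [Polynomial.eval_map, Polynomial.eval₂_hom]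
        rwa [eval_C] at h9'
      rw [h9, hr, eval_C]
    show _ = _
    rw [h8, h8]
  have h10 : p = (p.map (eval 0)).map C := by
    ext1 k
    rw [Polynomial.coeff_map, Polynomial.coeff_map]
    apply MvPolynomial.funext
    intro y
    have h11 := congrArg (fun q => Polynomial.coeff q k) (h7 y)
    simp only [Polynomial.coeff_map] at h11
    rw [h11, eval_C]
  apply ht
  refine ⟨p.map (eval 0), ?_, ?_⟩
  · exact ((minpoly.monic hti).map _).ne_zero
  · have h12 : Polynomial.aeval t p = 0 := minpoly.aeval A t
    rw [h10, ← MvPolynomial.algebraMap_eq, Polynomial.aeval_map_algebraMap] at h12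
    exact h12

end unit

section orbit

variable {N d : ℕ}

/-- The absolute value of the complex numbers. -/
private noncomputable def cabs : AbsoluteValue ℂ ℝ where
  toFun := fun x => ‖x‖
  map_mul' := norm_mul
  nonneg' := norm_nonneg
  eq_zero' := fun _ => norm_eq_zero
  add_le' := norm_add_le

/-- If a regular map has degree at least two, then the points with a large coordinate have
infinite orbits. -/
private lemma infinite_orb (hd : 2 ≤ d) {f : Fin N → MvPolynomial (Fin N) ℂ}
    (hf : Regular ℂ d f) : ∃ B : ℝ, ∀ b : Fin N → ℂ, ∀ i, B < ‖b i‖ →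
      (Set.range (orb f b)).Infinite := by
  obtain ⟨C, hC⟩ := Pool.Agent.Helper61.RP.growth_step (by omega) hf cabs
  refine ⟨Real.exp C, fun b i hb => ?_⟩
  have hstep : ∀ n, orb f b (n + 1) = fun i => eval (orb f b n) (f i) := by
    intro n
    rw [orb, orb, Function.iterate_succ_apply']
  have h0 : C < lh cabs (orb f b 0) := by
    have h1 : ‖b i‖ ≤ Pool.Agent.Helper61.RP.sz cabs b := Pool.Agent.Helper61.RP.le_sz cabs b i
    have h2 : orb f b 0 = b := rfl
    rw [h2, Pool.Agent.Helper61.RP.lh_eq]
    rw [Real.lt_log_iff_exp_lt (lt_of_lt_of_le one_pos (Pool.Agent.Helper61.RP.one_le_sz _ _))]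
    exact lt_of_lt_of_le hb h1
  have hC0 : 0 ≤ C := le_trans (abs_nonneg _) (hC b)
  have hgr : ∀ n, C < lh cabs (orb f b n) →
      lh cabs (orb f b n) < lh cabs (orb f b (n + 1)) := by
    intro n hn
    have h1 := (abs_le.1 (hC (orb f b n))).1
    rw [← hstep] at h1
    have h2 : (2 : ℝ) ≤ d := by exact_mod_cast hd
    have h3 : 2 * lh cabs (orb f b n) ≤ d * lh cabs (orb f b n) :=
      mul_le_mul_of_nonneg_right h2 (by linarith)
    linarith
  have h3 : ∀ n, C < lh cabs (orb f b n) ∧ lh cabs (orb f b n) < lh cabs (orb f b (n + 1)) := by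
    intro n
    induction n with
    | zero => exact ⟨h0, hgr 0 h0⟩
    | succ n ih =>
      have h1 : C < lh cabs (orb f b (n + 1)) := lt_trans ih.1 ih.2
      exact ⟨h1, hgr _ h1⟩
  have h4 : StrictMono (fun n => lh cabs (orb f b n)) := strictMono_nat_of_lt_succ fun n => (h3 n).2
  have h5 : Function.Injective (orb f b) := by
    intro m n h
    exact h4.injective (congrArg (lh cabs) h)
  exact Set.infinite_range_of_injective h5

/-- Orbits commute with field extensions. -/
private lemma map_orb {K L : Type} [Field K] [Field L] (φ : K →+* L)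
    (f : Fin N → MvPolynomial (Fin N) K) (b : Fin N → K) (n : ℕ) :
    (fun i => φ (orb f b n i)) = orb (fun i => map φ (f i)) (fun i => φ (b i)) n := by
  induction n with
  | zero => rfl
  | succ n ih =>
    have h1 : orb f b (n + 1) = fun i => eval (orb f b n) (f i) := by
      rw [orb, orb, Function.iterate_succ_apply']
    have h2 : orb (fun i => map φ (f i)) (fun i => φ (b i)) (n + 1) =
        fun i => eval (orb (fun i => map φ (f i)) (fun i => φ (b i)) n) (map φ (f i)) := by
      rw [orb, orb, Function.iterate_succ_apply']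
    rw [h1, h2, ← ih]
    funext i
    rw [eval_map]
    have h3 := eval₂_comp_left φ (RingHom.id K) (orb f b n) (f i)
    rw [RingHom.comp_id] at h3
    exact h3

private lemma regular_map {K : Type} [Field K] [Algebra K ℂ] {f : Fin N → MvPolynomial (Fin N) K}
    (hf : Regular ℂ d f) : Regular ℂ d (fun i => map (algebraMap K ℂ) (f i)) := by
  refine ⟨fun i => ?_, fun y hy => hf.2 y fun i => ?_⟩
  · exact le_trans (Finset.sup_mono (support_map_subset _ _)) (hf.1 i)
  · have h := hy i
    have h1 : homogeneousComponent d (map (algebraMap K ℂ) (f i)) =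
        map (algebraMap K ℂ) (homogeneousComponent d (f i)) := by
      ext m
      rw [coeff_homogeneousComponent, coeff_map, coeff_map, coeff_homogeneousComponent]
      split_ifs
      · rfl
      · rw [map_zero]
    rw [h1, aeval_map_algebraMap] at h
    exact h

end orbit

private lemma exists_hom {K : Type} [Field K] [Algebra K ℂ] {L : Type} [Field L] [Algebra K L]
    [Module.Finite K L] : Nonempty (L →ₐ[K] ℂ) := ⟨IsAlgClosed.lift⟩

/-- W1 -/
theorem exists_point {K : Type} [Field K] [NumberField K] [Algebra K ℂ] {N d : ℕ} (hd : 2 ≤ d)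
    {f : Fin N → MvPolynomial (Fin N) K} (hf : Regular ℂ d f) (a : Fin N → ℂ)
    (ha : (Set.range (orb (fun i => map (algebraMap K ℂ) (f i)) a)).Infinite) :
    ∃ (K' : Type) (_ : Field K') (_ : NumberField K') (_ : Algebra K K') (_ : Algebra K' ℂ)
      (_ : IsScalarTower K K' ℂ) (b : Fin N → K'),
      (∀ P : MvPolynomial (Fin N) K, aeval a P = 0 → aeval b P = 0) ∧
      (Set.range (orb (fun i => map (algebraMap K K') (f i)) b)).Infinite := by
  have hK : Infinite K := inferInstance
  obtain ⟨B, hB⟩ := infinite_orb hd (regular_map hf)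
  -- a general criterion
  have gen : ∀ (K' : Type) (_ : Field K') (_ : Algebra K K') (_ : Algebra K' ℂ)
      (_ : IsScalarTower K K' ℂ) (b : Fin N → K'),
      (Set.range (orb (fun i => map (algebraMap K ℂ) (f i)) (fun i => algebraMap K' ℂ (b i)))).Infinite →
      (Set.range (orb (fun i => map (algebraMap K K') (f i)) b)).Infinite := by
    intro K' _ _ _ _ b h hfin
    apply h
    have h1 : ∀ n, orb (fun i => map (algebraMap K ℂ) (f i)) (fun i => algebraMap K' ℂ (b i)) n =
        (fun x : Fin N → K' => fun i => algebraMap K' ℂ (x i))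
          (orb (fun i => map (algebraMap K K') (f i)) b n) := by
      intro n
      have h2 := map_orb (algebraMap K' ℂ) (fun i => map (algebraMap K K') (f i)) b n
      have h3 : (fun i => map (algebraMap K' ℂ) (map (algebraMap K K') (f i))) =
          fun i => map (algebraMap K ℂ) (f i) := by
        funext i
        rw [MvPolynomial.map_map, ← IsScalarTower.algebraMap_eq]
      rw [h3] at h2
      exact h2.symm
    have h4 : Set.range (orb (fun i => map (algebraMap K ℂ) (f i))
        (fun i => algebraMap K' ℂ (b i))) = (fun x : Fin N → K' => fun i => algebraMap K' ℂ (x i)) ''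
          Set.range (orb (fun i => map (algebraMap K K') (f i)) b) := by
      rw [← Set.range_comp]
      congr 1
      funext n
      exact h1 n
    rw [h4]
    exact hfin.image _
  by_cases halg : ∀ i, IsAlgebraic K (a i)
  · -- all coordinates are algebraic
    let K' := IntermediateField.adjoin K (Set.range a)
    have hfin : FiniteDimensional K K' := by
      refine IntermediateField.finiteDimensional_adjoin ?_
      rintro x ⟨i, rfl⟩
      exact (halg i).isIntegral
    let b : Fin N → K' := fun i => ⟨a i, IntermediateField.subset_adjoin K _ ⟨i, rfl⟩⟩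
    have hst : IsScalarTower K K' ℂ := inferInstance
    refine ⟨K', inferInstance, NumberField.of_module_finite K K', inferInstance, inferInstance,
      hst, b, fun P hP => ?_, gen K' _ _ _ hst b ?_⟩
    · apply (algebraMap K' ℂ).injective
      rw [map_zero, ← hP, ← aeval_algebraMap_apply]
      rfl
    · exact ha
  · -- some coordinate is transcendental
    obtain ⟨i₀, hi₀⟩ := not_forall.1 halg
    let R := (aeval (R := K) a).range
    have hmem : ∀ i, a i ∈ R := fun i => ⟨X i, aeval_X a i⟩
    have hft : Algebra.FiniteType K R :=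
      Algebra.FiniteType.of_surjective (aeval (R := K) a).rangeRestrict
        (aeval (R := K) a).rangeRestrict_surjective
    let r : Fin N → R := fun i => ⟨a i, hmem i⟩
    have ht : Transcendental K (r i₀) := by
      intro h
      apply hi₀
      exact (isAlgebraic_algHom_iff R.val Subtype.val_injective).2 h
    have hF := finite_isUnit_sub ht
    have hF' := hF.preimage (f := fun n : ℕ => (n : K)) Nat.cast_injective.injOn
    obtain ⟨m, hm⟩ := hF'.bddAbove
    obtain ⟨M, hM1, hM2⟩ : ∃ M : ℕ, m < M ∧ B < M := by
      refine ⟨max (m + 1) (⌈B⌉₊ + 1), ?_, ?_⟩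
      · exact lt_of_lt_of_le (Nat.lt_succ_self m) (le_max_left _ _)
      · have h1 : B ≤ ⌈B⌉₊ := Nat.le_ceil B
        have h2 : ((⌈B⌉₊ + 1 : ℕ) : ℝ) ≤ (max (m + 1) (⌈B⌉₊ + 1) : ℕ) := by
          exact_mod_cast le_max_right _ _
        have h3 : ((⌈B⌉₊ + 1 : ℕ) : ℝ) = ⌈B⌉₊ + 1 := by push_cast; rfl
        linarith
    have hnu : ¬ IsUnit (r i₀ - algebraMap K R M) := by
      intro h
      have h1 : M ∈ (fun n : ℕ => (n : K)) ⁻¹' {c : K | IsUnit (r i₀ - algebraMap K R c)} := h
      exact absurd (hm h1) (by omega)
    obtain ⟨I, hI, htI⟩ := exists_max_ideal_of_mem_nonunits hnu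
    let _ : Field (R ⧸ I) := Ideal.Quotient.field I
    have hfin : Module.Finite K (R ⧸ I) := finite_of_finite_type_of_isJacobsonRing K (R ⧸ I)
    obtain ⟨φ⟩ := exists_hom (K := K) (L := R ⧸ I)
    let _ : Algebra (R ⧸ I) ℂ := φ.toRingHom.toAlgebra
    have hφ : ∀ x, algebraMap (R ⧸ I) ℂ x = φ x := fun x => rfl
    have hst : IsScalarTower K (R ⧸ I) ℂ := by
      refine IsScalarTower.of_algebraMap_eq fun x => ?_
      rw [hφ]
      exact (φ.commutes x).symm
    refine ⟨R ⧸ I, inferInstance, NumberField.of_module_finite K (R ⧸ I), inferInstance,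
      inferInstance, hst, fun i => Ideal.Quotient.mk I (r i), fun P hP => ?_, gen _ _ _ _ hst _ ?_⟩
    · have h1 : aeval (fun i => Ideal.Quotient.mk I (r i)) P = Ideal.Quotient.mkₐ K I (aeval r P) := by
        rw [comp_aeval_apply]
        rfl
      have h2 : aeval r P = 0 := by
        apply Subtype.ext
        have h3 : ((aeval r P : R) : ℂ) = R.val (aeval r P) := rfl
        rw [h3, comp_aeval_apply]
        exact hP
      rw [h1, h2, map_zero]
    · apply hB _ i₀
      have h1 : Ideal.Quotient.mk I (r i₀) = algebraMap K (R ⧸ I) M := by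
        rw [← sub_eq_zero]
        have h2 : algebraMap K (R ⧸ I) M = Ideal.Quotient.mk I (algebraMap K R M) := rfl
        rw [h2, ← map_sub]
        exact Ideal.Quotient.eq_zero_iff_mem.2 htI
      show B < ‖algebraMap (R ⧸ I) ℂ (Ideal.Quotient.mk I (r i₀))‖
      rw [h1, ← IsScalarTower.algebraMap_apply, map_natCast, Complex.norm_natCast]
      exact hM2

end Pool.Agent.Helper87.RP
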